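import Pool.Agent.Helper54.DT.StmtsS

set_option autoImplicit false

namespace Pool.Agent.Helper52.DCT

open Finset Pool.Agent.Helper54.ETR Pool.Agent.Helper54.Poly Pool.Agent.Helper54.DT

theorem ev_sumO (x : ℕ → ℝ) (l : List Term) :
    (sumO oT l).eval x = (l.map (Term.eval x)).sum := by
  induction l with
  | nil => rfl
  | cons a l ih =>
    have h : (sumO oT (a :: l)).eval x = a.eval x + (sumO oT l).eval x := rfl
    rw [h, ih, List.map_cons, List.sum_cons]

theorem sum_range_list (n : ℕ) (f : ℕ → ℝ) :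
    ((List.range n).map f).sum = ∑ i ∈ range n, f i := by
  induction n with
  | zero => rfl
  | succ n ih =>
    rw [List.range_succ, List.map_append, List.sum_append, ih, Finset.sum_range_succ]
    simp

theorem flat_sum (n : ℕ) (f : ℕ → List ℝ) :
    ((List.range n).flatMap f).sum = ∑ i ∈ range n, (f i).sum := by
  induction n with
  | zero => rfl
  | succ n ih =>
    rw [List.range_succ, List.flatMap_append, List.sum_append, ih, Finset.sum_range_succ]
    simp

theorem ev_sumR (x : ℕ → ℝ) (n : ℕ) (f : ℕ → Term) :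
    (sumO oT ((List.range n).map f)).eval x = ∑ i ∈ range n, (f i).eval x := by
  rw [ev_sumO, List.map_map, sum_range_list]
  rfl

theorem ev_add (x : ℕ → ℝ) (s t : Term) : (oT.add s t).eval x = s.eval x + t.eval x := rfl
theorem ev_sub (x : ℕ → ℝ) (s t : Term) : (oT.sub s t).eval x = s.eval x - t.eval x := rfl
theorem ev_mul (x : ℕ → ℝ) (s t : Term) : (oT.mul s t).eval x = s.eval x * t.eval x := rfl
theorem ev_var (x : ℕ → ℝ) (i : ℕ) : (oT.var i).eval x = x i := rfl
theorem ev_one (x : ℕ → ℝ) : (oT.one).eval x = 1 := rfl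
theorem ev_zero (x : ℕ → ℝ) : (oT.zero).eval x = 0 := rfl

theorem ev_linE (x : ℕ → ℝ) (M : ℕ) (e : ℕ → Term) (v : ℕ → ℕ) :
    (linE oT M e v).eval x = ∑ m ∈ range M, (e m).eval x * x (v m) := by
  unfold linE
  rw [ev_sumR]
  rfl

theorem ev_objE (x : ℕ → ℝ) (M : ℕ) (S : ℕ → ℕ → ℕ → Term) (h : ℕ) :
    (objE oT M S h).eval x = ∑ a ∈ range M, ∑ b ∈ range M, ∑ c ∈ range M,
      (S a b c).eval x * x (vy h a b c) := by
  unfold objE
  rw [ev_sumO, List.map_flatMap, flat_sum]
  refine Finset.sum_congr rfl fun a _ => ?_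
  rw [List.map_flatMap, flat_sum]
  refine Finset.sum_congr rfl fun b _ => ?_
  rw [List.map_map, sum_range_list]
  rfl

theorem ev_locE (x : ℕ → ℝ) (M R : ℕ) (E : ℕ → ℕ → Term) (tg : ℕ → Bool)
    (S : ℕ → ℕ → ℕ → Term) (h a α b β : ℕ) :
    (locE oT M R E tg S h a α b β).eval x =
      locF M R (fun r m => (E r m).eval x) tg (fun a b c => (S a b c).eval x)
        (fun a b c => x (vy h a b c)) (fun r a b c => x (vL h r a b c)) a α b β := by
  unfold locE locF
  rw [ev_add, ev_sumR, ev_sumR]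
  congr 1
  refine Finset.sum_congr rfl fun r _ => ?_
  by_cases hr : tg r = true
  · rw [if_pos hr, if_pos hr]
    rfl
  · rw [if_neg hr, if_neg hr]
    rfl

/-! ### blocks -/

theorem psd_one (x : ℕ → ℝ) (t : Term) : PsdAt x [[t]] ↔ 0 ≤ t.eval x := by
  have key : ∀ v : ℕ → ℝ, (∑ i ∈ Finset.range ([[t]] : List (List Term)).length,
      ∑ j ∈ Finset.range ([[t]] : List (List Term)).length,
      v i * v j * (ent [[t]] i j).eval x) = v 0 * v 0 * t.eval x := by
    intro v
    have hl : ([[t]] : List (List Term)).length = 1 := rfl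
    rw [hl, Finset.sum_range_one, Finset.sum_range_one]
    rfl
  constructor
  · intro h
    have h1 := h fun _ => 1
    rw [key] at h1
    linarith
  · intro h v
    rw [key]
    exact mul_nonneg (mul_self_nonneg _) h

theorem ent_map (n : ℕ) (F : ℕ → ℕ → Term) (i j : ℕ) (hi : i < n) (hj : j < n) :
    ent ((List.range n).map fun i => (List.range n).map fun j => F i j) i j = F i j := by
  unfold ent
  rw [List.getD_eq_getElem?_getD, List.getD_eq_getElem?_getD, List.getElem?_map,
    List.getElem?_range hi, Option.map_some, Option.getD_some, List.getElem?_map,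
    List.getElem?_range hj, Option.map_some, Option.getD_some]

theorem psd_map (x : ℕ → ℝ) (n : ℕ) (F : ℕ → ℕ → Term) :
    PsdAt x ((List.range n).map fun i => (List.range n).map fun j => F i j) ↔
      ∀ v : ℕ → ℝ, 0 ≤ ∑ i ∈ range n, ∑ j ∈ range n, v i * v j * (F i j).eval x := by
  unfold PsdAt
  refine forall_congr' fun v => ?_
  rw [List.length_map, List.length_range]
  have h : (∑ i ∈ range n, ∑ j ∈ range n, v i * v j *
      (ent ((List.range n).map fun i => (List.range n).map fun j => F i j) i j).eval x) =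
      ∑ i ∈ range n, ∑ j ∈ range n, v i * v j * (F i j).eval x := by
    refine Finset.sum_congr rfl fun i hi => Finset.sum_congr rfl fun j hj => ?_
    rw [ent_map n F i j (Finset.mem_range.1 hi) (Finset.mem_range.1 hj)]
  rw [h]

theorem psd_two (x : ℕ → ℝ) (e t : ℕ) :
    PsdAt x [[oT.var e, oT.one], [oT.one, oT.var t]] ↔ 0 < x e ∧ 1 ≤ x e * x t := by
  have key : ∀ v : ℕ → ℝ,
      (∑ i ∈ Finset.range ([[oT.var e, oT.one], [oT.one, oT.var t]] : List (List Term)).length,
      ∑ j ∈ Finset.range ([[oT.var e, oT.one], [oT.one, oT.var t]] : List (List Term)).length,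
      v i * v j * (ent [[oT.var e, oT.one], [oT.one, oT.var t]] i j).eval x) =
      v 0 * v 0 * x e + v 0 * v 1 + (v 1 * v 0 + v 1 * v 1 * x t) := by
    intro v
    have hl : ([[oT.var e, oT.one], [oT.one, oT.var t]] : List (List Term)).length = 2 := rfl
    rw [hl, Finset.sum_range_succ, Finset.sum_range_one, Finset.sum_range_succ,
      Finset.sum_range_one, Finset.sum_range_succ, Finset.sum_range_one]
    have h00 : (ent [[oT.var e, oT.one], [oT.one, oT.var t]] 0 0).eval x = x e := rfl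
    have h01 : (ent [[oT.var e, oT.one], [oT.one, oT.var t]] 0 1).eval x = 1 := rfl
    have h10 : (ent [[oT.var e, oT.one], [oT.one, oT.var t]] 1 0).eval x = 1 := rfl
    have h11 : (ent [[oT.var e, oT.one], [oT.one, oT.var t]] 1 1).eval x = x t := rfl
    rw [h00, h01, h10, h11]
    ring
  constructor
  · intro h
    have hv : ∀ p q : ℝ, 0 ≤ p * p * x e + p * q + (q * p + q * q * x t) := by
      intro p q
      have h1 := h fun i => if i = 0 then p else q
      rw [key] at h1
      exact h1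
    have he : 0 ≤ x e := by
      have := hv 1 0
      linarith
    have ht : 0 ≤ x t := by
      have := hv 0 1
      linarith
    have hpos : 0 < x e := by
      rcases he.lt_or_eq with h1 | h1
      · exact h1
      · exfalso
        have h2 := hv (x t + 1) (-1)
        rw [← h1] at h2
        linarith
    refine ⟨hpos, ?_⟩
    have h2 := hv 1 (-(x e))
    have h3 : 0 ≤ x e * (x e * x t - 1) := by
      have h4 : x e * (x e * x t - 1) =
          1 * 1 * x e + 1 * -x e + (-x e * 1 + -x e * -x e * x t) := by ring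
      rw [h4]
      exact h2
    have h5 := nonneg_of_mul_nonneg_right h3 hpos
    linarith
  · rintro ⟨he, h1⟩ v
    rw [key]
    have h2 : 0 ≤ x e * (v 0 * v 0 * x e + v 0 * v 1 + (v 1 * v 0 + v 1 * v 1 * x t)) := by
      have h3 : x e * (v 0 * v 0 * x e + v 0 * v 1 + (v 1 * v 0 + v 1 * v 1 * x t)) =
          (x e * v 0 + v 1) ^ 2 + (x e * x t - 1) * v 1 ^ 2 := by ring
      rw [h3]
      have h4 : 0 ≤ x e * x t - 1 := by linarith
      positivity
    exact nonneg_of_mul_nonneg_right h2 he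

/-! ### lists of blocks -/

/-- all the matrices are positive semidefinite -/
def AP (x : ℕ → ℝ) (l : List (List (List Term))) : Prop := ∀ B ∈ l, PsdAt x B

theorem AP_app (x : ℕ → ℝ) (l m : List (List (List Term))) :
    AP x (l ++ m) ↔ AP x l ∧ AP x m := List.forall_mem_append

theorem AP_nil (x : ℕ → ℝ) : AP x [] ↔ True :=
  ⟨fun _ => trivial, fun _ _ hB => absurd hB List.not_mem_nil⟩

theorem AP_cons (x : ℕ → ℝ) (B : List (List Term)) (l : List (List (List Term))) :
    AP x (B :: l) ↔ PsdAt x B ∧ AP x l := List.forall_mem_cons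

theorem AP_flat (x : ℕ → ℝ) (n : ℕ) (f : ℕ → List (List (List Term))) :
    AP x ((List.range n).flatMap f) ↔ ∀ i < n, AP x (f i) := by
  unfold AP
  constructor
  · intro h i hi B hB
    exact h B (List.mem_flatMap.2 ⟨i, List.mem_range.2 hi, hB⟩)
  · intro h B hB
    obtain ⟨i, hi, hB⟩ := List.mem_flatMap.1 hB
    exact h i (List.mem_range.1 hi) B hB

theorem AP_if (x : ℕ → ℝ) (p : Prop) [Decidable p] (l m : List (List (List Term))) :
    AP x (if p then l else m) ↔ (p → AP x l) ∧ (¬ p → AP x m) := by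
  by_cases h : p
  · rw [if_pos h]
    exact ⟨fun h1 => ⟨fun _ => h1, fun h2 => absurd h h2⟩, fun h1 => h1.1 h⟩
  · rw [if_neg h]
    exact ⟨fun h1 => ⟨fun h2 => absurd h2 h, fun _ => h1⟩, fun h1 => h1.2 h⟩

theorem AP_eqn (x : ℕ → ℝ) (t : Term) : AP x (eqn oT t) ↔ t.eval x = 0 := by
  unfold eqn
  rw [AP_cons, AP_cons, AP_nil, psd_one, psd_one, ev_sub, ev_zero]
  constructor
  · rintro ⟨h1, h2, -⟩
    linarith
  · intro h
    rw [h]
    exact ⟨le_refl _, by linarith, trivial⟩

/-- meaning of the matrices -/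
theorem st_SEM (hL : ST_SEML) : ST_SEM := by
  intro M R E kd tg S md h x hM
  have hS : (∀ B ∈ half oT M R E kd tg S md h, PsdAt x B) ↔
      AP x (half oT M R E kd tg S md h) := Iff.rfl
  rw [hS]
  unfold half
  rw [AP_app, AP_app, AP_app, AP_app, AP_app, AP_app, AP_app, AP_app, AP_app, AP_app]
  rw [AP_eqn, AP_flat, AP_cons, AP_nil, psd_map, AP_flat, AP_flat, AP_flat, AP_cons, AP_nil,
    hL M (locE oT M R E tg S h) x hM, AP_eqn, AP_flat, AP_cons, AP_nil, psd_two, AP_if]
  simp only [AP_if, AP_flat, AP_eqn, AP_cons, AP_nil, psd_one, ev_linE, ev_objE, ev_locE, ev_add,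
    ev_sub, ev_var, ev_one, ev_zero, and_true]
  constructor
  · rintro ⟨⟨⟨⟨⟨⟨⟨⟨⟨⟨a1, a2⟩, a3⟩, a4⟩, a5⟩, a6⟩, a7⟩, a8⟩, a9⟩, a10⟩, a11⟩
    refine ⟨?_, a10.2⟩
    refine ⟨?_, ?_, ?_, a3, ?_, ?_, ?_, a7, ?_, ?_, ?_, ?_, a10.1, ?_, ?_⟩
    · exact sub_eq_zero.1 a1
    · intro a ha b hb c hc
      have h1 := (a2 a ha b hb c hc).1
      have h2 := (a2 b hb a ha c hc).1
      exact le_antisymm (sub_nonneg.1 h2) (sub_nonneg.1 h1)
    · intro a ha b hb c hc
      have h1 := (a2 a ha b hb c hc).2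
      have h2 := (a2 a ha c hc b hb).2
      exact le_antisymm (sub_nonneg.1 h2) (sub_nonneg.1 h1)
    · intro r hr ht a ha b hb
      exact (a4 r hr).1 ht a ha b hb
    · intro r hr hk
      exact (a5 r hr).2 hk
    · intro r hr ht b hb c hc
      exact (a6 r hr).1 ht b hb c hc
    · exact sub_eq_zero.1 a8
    · intro r hr hk
      exact (a9 r hr).1 hk
    · intro r hr hk
      have h0 : ¬ kd r = 0 := by omega
      exact sub_nonneg.1 (((a9 r hr).2 h0).1 hk).1
    · intro r hr hk
      by_cases h1 : kd r = 1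
      · exact (((a9 r hr).2 hk).1 h1).2
      · exact ((a9 r hr).2 hk).2 h1
    · intro hm
      have h1 := a11.1 hm
      have h2 : (∑ a ∈ range M, ∑ b ∈ range M, ∑ c ∈ range M,
          Term.eval x (S a b c) * x (vy h a b c)) ≤ - x (ve h) := by linarith
      exact h2
    · intro hm
      have hm' : ¬ md = true := by
        rw [hm]
        exact Bool.false_ne_true
      have h1 := a11.2 hm'
      refine ⟨?_, fun a ha => sub_eq_zero.1 (h1.2 a ha)⟩
      have h3 := h1.1
      have h2 : (∑ a ∈ range M, ∑ b ∈ range M, ∑ c ∈ range M,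
          Term.eval x (S a b c) * x (vy h a b c)) ≤ 0 := by linarith
      exact h2
  · rintro ⟨H, hb⟩
    refine ⟨⟨⟨⟨⟨⟨⟨⟨⟨⟨?_, ?_⟩, H.mom⟩, ?_⟩, ?_⟩, ?_⟩, H.loc⟩, ?_⟩, ?_⟩, ⟨H.ep, hb⟩⟩, ?_, ?_⟩
    · exact sub_eq_zero.2 H.y0
    · intro a ha b hb c hc
      exact ⟨sub_nonneg.2 (le_of_eq (H.y1 a ha b hb c hc).symm),
        sub_nonneg.2 (le_of_eq (H.y2 a ha b hb c hc).symm)⟩
    · intro r hr
      exact ⟨fun ht a ha b hb => H.tight r hr ht a ha b hb, fun _ => trivial⟩
    · intro r hr
      exact ⟨fun _ => trivial, fun hk => H.row r hr hk⟩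
    · intro r hr
      exact ⟨fun ht b hb c hc => H.lam r hr ht b hb c hc, fun _ => trivial⟩
    · exact sub_eq_zero.2 H.x0
    · intro r hr
      refine ⟨fun hk => H.xz r hr hk, fun hk => ⟨fun h1 => ⟨?_, H.xw r hr hk⟩,
        fun _ => H.xw r hr hk⟩⟩
      exact sub_nonneg.2 (H.xp r hr h1)
    · intro hm
      have h1 : (∑ a ∈ range M, ∑ b ∈ range M, ∑ c ∈ range M,
          Term.eval x (S a b c) * x (vy h a b c)) ≤ - x (ve h) := H.m1 hm
      linarith
    · intro hm
      have hm' : md = false := by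
        cases md
        · rfl
        · exact absurd rfl hm
      have h1 := H.m2 hm'
      refine ⟨?_, fun a ha => sub_eq_zero.2 (h1.2 a ha)⟩
      have h2 : (∑ a ∈ range M, ∑ b ∈ range M, ∑ c ∈ range M,
          Term.eval x (S a b c) * x (vy h a b c)) ≤ 0 := h1.1
      linarith

end Pool.Agent.Helper52.DCT
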